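import Pool.Agent.QUD.StmtsC

/-!
# QUD, row CPC: a quadrilateral in the language of squad FINE
-/

set_option autoImplicit false

namespace Pool.Agent.QUD.H62

open MeasureTheory Complex Filter Topology ProbabilityTheory Pool.Agent.H16Iso Pool.Agent.H62T
open Pool.Agent.H16F (Sublin ind CP len c0 MatchStatement Law2Statement)
open Pool.Agent.AEU Pool.Agent.XQ

/-! ### Unit vectors -/

theorem ip_dt {a b : ℂ} (ha : ‖a‖ = 1) (hb : ‖b‖ = 1) : ip a b ^ 2 + dt a b ^ 2 = 1 := by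
  have h1 : a.re ^ 2 + a.im ^ 2 = 1 := by
    have := Complex.sq_norm a
    rw [ha, Complex.normSq_apply] at this
    nlinarith
  have h2 : b.re ^ 2 + b.im ^ 2 = 1 := by
    have := Complex.sq_norm b
    rw [hb, Complex.normSq_apply] at this
    nlinarith
  have h3 : ip a b ^ 2 + dt a b ^ 2 = (a.re ^ 2 + a.im ^ 2) * (b.re ^ 2 + b.im ^ 2) := by
    unfold ip dt
    ring
  rw [h3, h1, h2, mul_one]

theorem frame {a : ℂ} (ha : ‖a‖ = 1) (b : ℂ) : b = a * ((ip a b : ℂ) + (dt a b : ℂ) * I) := by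
  have h1 : a.re ^ 2 + a.im ^ 2 = 1 := by
    have := Complex.sq_norm a
    rw [ha, Complex.normSq_apply] at this
    nlinarith
  apply Complex.ext
  · simp only [ip, dt, Complex.mul_re, Complex.add_re, Complex.ofReal_re, Complex.ofReal_im,
      Complex.I_re, Complex.I_im, Complex.add_im, Complex.mul_im]
    linear_combination -(b.re) * h1
  · simp only [ip, dt, Complex.mul_re, Complex.add_re, Complex.ofReal_re, Complex.ofReal_im,
      Complex.I_re, Complex.I_im, Complex.add_im, Complex.mul_im]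
    linear_combination -(b.im) * h1

/-- the angle between two unit vectors -/
theorem angle {a b : ℂ} (ha : ‖a‖ = 1) (hb : ‖b‖ = 1) (h : 0 < dt a b) :
    Real.cos (Real.arccos (ip a b)) = ip a b ∧ Real.sin (Real.arccos (ip a b)) = dt a b ∧
      0 < Real.arccos (ip a b) ∧ Real.arccos (ip a b) < Real.pi ∧
      b = a * Complex.exp ((Real.arccos (ip a b) : ℝ) * I) := by
  have h1 := ip_dt ha hb
  have h2 : -1 < ip a b := by nlinarith
  have h3 : ip a b < 1 := by nlinarith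
  have h4 : Real.cos (Real.arccos (ip a b)) = ip a b := Real.cos_arccos h2.le h3.le
  have h5 : Real.sin (Real.arccos (ip a b)) = dt a b := by
    rw [Real.sin_arccos]
    have : 1 - ip a b ^ 2 = dt a b ^ 2 := by linarith
    rw [this, Real.sqrt_sq h.le]
  refine ⟨h4, h5, Real.arccos_pos.2 h3, ?_, ?_⟩
  · rw [← Real.arccos_neg_one]
    exact Real.arccos_lt_arccos (le_refl _) h2 h3.le
  · rw [Complex.exp_mul_I, ← Complex.ofReal_cos, ← Complex.ofReal_sin, h4, h5]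
    exact frame ha b

/-- the side of `a` between the previous side `p` and the next side `n` -/
theorem side_eq {p a n : HP} (ha : ‖a.1‖ = 1)
    (h1 : 0 < dt p.1 a.1) (h2 : 0 < dt a.1 n.1) :
    vx a n - vx p a = (((p.2 - a.2 * ip p.1 a.1) / dt p.1 a.1 +
      (n.2 - a.2 * ip a.1 n.1) / dt a.1 n.1 : ℝ) : ℂ) * (I * a.1) := by
  have e1 := frame ha n.1
  have e2 := frame ha p.1
  have e3 : ip a.1 p.1 = ip p.1 a.1 := by unfold ip; ring
  have e4 : dt a.1 p.1 = -dt p.1 a.1 := by unfold dt; ring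
  rw [e3, e4] at e2
  have d1 : ((dt p.1 a.1 : ℝ) : ℂ) ≠ 0 := by exact_mod_cast h1.ne'
  have d2 : ((dt a.1 n.1 : ℝ) : ℂ) ≠ 0 := by exact_mod_cast h2.ne'
  obtain ⟨D1, hD1⟩ : ∃ D, D = dt p.1 a.1 := ⟨_, rfl⟩
  obtain ⟨D2, hD2⟩ : ∃ D, D = dt a.1 n.1 := ⟨_, rfl⟩
  obtain ⟨C1, hC1⟩ : ∃ D, D = ip p.1 a.1 := ⟨_, rfl⟩
  obtain ⟨C2, hC2⟩ : ∃ D, D = ip a.1 n.1 := ⟨_, rfl⟩
  unfold vx
  rw [← hD1, ← hD2, ← hC1, ← hC2]
  rw [← hD2, ← hC2] at e1
  rw [← hD1, ← hC1] at e2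
  rw [← hD1] at d1
  rw [← hD2] at d2
  have hI : I * I = -1 := Complex.I_mul_I
  have e5 : I * ((n.2 : ℂ) * a.1 - (a.2 : ℂ) * n.1) / (D2 : ℂ) =
      a.1 * (I * (((n.2 : ℂ) - (a.2 : ℂ) * (C2 : ℂ)) / (D2 : ℂ)) + (a.2 : ℂ)) := by
    rw [e1]
    field_simp
    linear_combination (-(a.2 : ℂ) * a.1 * D2) * hI
  have e6 : I * ((a.2 : ℂ) * p.1 - (p.2 : ℂ) * a.1) / (D1 : ℂ) =
      a.1 * (I * (((a.2 : ℂ) * (C1 : ℂ) - (p.2 : ℂ)) / (D1 : ℂ)) + (a.2 : ℂ)) := by
    rw [e2]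
    push_cast
    field_simp
    linear_combination (-(a.2 : ℂ) * a.1 * D1) * hI
  rw [e5, e6]
  push_cast
  field_simp
  ring

theorem side_all {p a n : HP} (ha : ‖a.1‖ = 1)
    (h1 : 0 < dt p.1 a.1) (h2 : 0 < dt a.1 n.1) (hon : ip p.1 (vx p a) = p.2)
    (hlt : ip p.1 (vx a n) < p.2) :
    0 < (p.2 - a.2 * ip p.1 a.1) / dt p.1 a.1 + (n.2 - a.2 * ip a.1 n.1) / dt a.1 n.1 ∧
    (p.2 - a.2 * ip p.1 a.1) / dt p.1 a.1 + (n.2 - a.2 * ip a.1 n.1) / dt a.1 n.1 =
      ‖vx p a - vx a n‖ ∧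
    vx a n - vx p a = ((‖vx p a - vx a n‖ : ℝ) : ℂ) * (I * a.1) := by
  have e := side_eq ha h1 h2
  obtain ⟨Λ, hΛ⟩ : ∃ Λ, Λ = (p.2 - a.2 * ip p.1 a.1) / dt p.1 a.1 +
    (n.2 - a.2 * ip a.1 n.1) / dt a.1 n.1 := ⟨_, rfl⟩
  rw [← hΛ] at e ⊢
  have e2 : ip p.1 (vx a n) - ip p.1 (vx p a) = -(Λ * dt p.1 a.1) := by
    have e3 : vx a n = vx p a + (Λ : ℂ) * (I * a.1) := by rw [← e]; ring
    rw [e3]
    simp only [ip, dt, Complex.mul_re, Complex.add_re, Complex.ofReal_re, Complex.ofReal_im,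
      Complex.I_re, Complex.I_im, Complex.add_im, Complex.mul_im]
    ring
  have hpos : 0 < Λ := by
    have h3 : 0 < Λ * dt p.1 a.1 := by linarith
    by_contra hcon
    have h4 := mul_nonpos_of_nonpos_of_nonneg (not_lt.1 hcon) h1.le
    linarith
  have hnorm : ‖vx p a - vx a n‖ = Λ := by
    rw [norm_sub_rev, e, norm_mul, norm_mul, Complex.norm_real, Complex.norm_I, ha, one_mul, mul_one,
      Real.norm_eq_abs, abs_of_pos hpos]
  exact ⟨hpos, hnorm.symm, by rw [hnorm]; exact e⟩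

theorem cpc (vxx : VxxStatement) : CpcStmt := by
  intro a b c d h
  have ha : ‖a.1‖ = 1 := h.pg.unit a (by simp)
  have hb : ‖b.1‖ = 1 := h.pg.unit b (by simp)
  have hc : ‖c.1‖ = 1 := h.pg.unit c (by simp)
  have hd : ‖d.1‖ = 1 := h.pg.unit d (by simp)
  obtain ⟨n1, n2, n3, n4, n5, n6⟩ := h.ne
  obtain ⟨-, v2, -⟩ := vxx _ h.pg
  obtain ⟨ca, sa, pa, la, ea⟩ := angle ha hb h.ab
  obtain ⟨cb, sb, pb, lb, eb⟩ := angle hb hc h.bc
  obtain ⟨cc, sc, pc, lc, ec⟩ := angle hc hd h.cd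
  obtain ⟨cd, sd, pd, ld, ed⟩ := angle hd ha h.da
  obtain ⟨ta, ua, wa⟩ := side_all ha h.da h.ab h.vda.on₁
    (v2 a b _ h.vab d (by simp) (fun h => n3 h.symm) (fun h => n5 h.symm))
  obtain ⟨tb, ub, wb⟩ := side_all hb h.ab h.bc h.vab.on₁
    (v2 b c _ h.vbc a (by simp) n1 n2)
  obtain ⟨tc, uc, wc⟩ := side_all hc h.bc h.cd h.vbc.on₁
    (v2 c d _ h.vcd b (by simp) n4 n5)
  obtain ⟨td, ud, wd⟩ := side_all hd h.cd h.da h.vcd.on₁
    (v2 d a _ h.vda c (by simp) n6 (fun h => n2 h.symm))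
  let β : Fin 4 → ℝ := ![Real.arccos (ip a.1 b.1), Real.arccos (ip b.1 c.1),
    Real.arccos (ip c.1 d.1), Real.arccos (ip d.1 a.1)]
  have l0 : len β ![a.2, b.2, c.2, d.2] 0 = (d.2 - a.2 * ip d.1 a.1) / dt d.1 a.1 +
      (b.2 - a.2 * ip a.1 b.1) / dt a.1 b.1 := by
    change (d.2 - a.2 * Real.cos (Real.arccos (ip d.1 a.1))) /
      Real.sin (Real.arccos (ip d.1 a.1)) + (b.2 - a.2 * Real.cos (Real.arccos (ip a.1 b.1))) /
      Real.sin (Real.arccos (ip a.1 b.1)) = _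
    rw [ca, sa, cd, sd]
  have l1 : len β ![a.2, b.2, c.2, d.2] 1 = (a.2 - b.2 * ip a.1 b.1) / dt a.1 b.1 +
      (c.2 - b.2 * ip b.1 c.1) / dt b.1 c.1 := by
    change (a.2 - b.2 * Real.cos (Real.arccos (ip a.1 b.1))) /
      Real.sin (Real.arccos (ip a.1 b.1)) + (c.2 - b.2 * Real.cos (Real.arccos (ip b.1 c.1))) /
      Real.sin (Real.arccos (ip b.1 c.1)) = _
    rw [ca, sa, cb, sb]
  have l2 : len β ![a.2, b.2, c.2, d.2] 2 = (b.2 - c.2 * ip b.1 c.1) / dt b.1 c.1 +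
      (d.2 - c.2 * ip c.1 d.1) / dt c.1 d.1 := by
    change (b.2 - c.2 * Real.cos (Real.arccos (ip b.1 c.1))) /
      Real.sin (Real.arccos (ip b.1 c.1)) + (d.2 - c.2 * Real.cos (Real.arccos (ip c.1 d.1))) /
      Real.sin (Real.arccos (ip c.1 d.1)) = _
    rw [cb, sb, cc, sc]
  have l3 : len β ![a.2, b.2, c.2, d.2] 3 = (c.2 - d.2 * ip c.1 d.1) / dt c.1 d.1 +
      (a.2 - d.2 * ip d.1 a.1) / dt d.1 a.1 := by
    change (c.2 - d.2 * Real.cos (Real.arccos (ip c.1 d.1))) /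
      Real.sin (Real.arccos (ip c.1 d.1)) + (a.2 - d.2 * Real.cos (Real.arccos (ip d.1 a.1))) /
      Real.sin (Real.arccos (ip d.1 a.1)) = _
    rw [cc, sc, cd, sd]
  have hsum : ∑ i, β i = 2 * Real.pi := by
    have h1 : ∑ i, β i = Real.arccos (ip a.1 b.1) + Real.arccos (ip b.1 c.1) +
      Real.arccos (ip c.1 d.1) + Real.arccos (ip d.1 a.1) := by
      rw [Fin.sum_univ_four]
      rfl
    rw [h1]
    have h2 : a.1 = a.1 * Complex.exp (((Real.arccos (ip a.1 b.1) + Real.arccos (ip b.1 c.1) +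
      Real.arccos (ip c.1 d.1) + Real.arccos (ip d.1 a.1) : ℝ) : ℂ) * I) := by
      have h3 : (((Real.arccos (ip a.1 b.1) + Real.arccos (ip b.1 c.1) +
        Real.arccos (ip c.1 d.1) + Real.arccos (ip d.1 a.1) : ℝ) : ℂ) * I) =
        (Real.arccos (ip a.1 b.1) : ℝ) * I + (Real.arccos (ip b.1 c.1) : ℝ) * I +
        (Real.arccos (ip c.1 d.1) : ℝ) * I + (Real.arccos (ip d.1 a.1) : ℝ) * I := by
        push_cast
        ring
      rw [h3, Complex.exp_add, Complex.exp_add, Complex.exp_add, ← mul_assoc, ← mul_assoc,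
        ← mul_assoc, ← ea, ← eb, ← ec, ← ed]
    have ha0 : a.1 ≠ 0 := by
      intro h0
      rw [h0, norm_zero] at ha
      exact zero_ne_one ha
    have h4 : Complex.exp (((Real.arccos (ip a.1 b.1) + Real.arccos (ip b.1 c.1) +
      Real.arccos (ip c.1 d.1) + Real.arccos (ip d.1 a.1) : ℝ) : ℂ) * I) = 1 :=
      mul_left_cancel₀ ha0 (by rw [← h2, mul_one])
    obtain ⟨k, hk⟩ := Complex.exp_eq_one_iff.1 h4
    have h5 : Real.arccos (ip a.1 b.1) + Real.arccos (ip b.1 c.1) +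
      Real.arccos (ip c.1 d.1) + Real.arccos (ip d.1 a.1) = (k : ℝ) * (2 * Real.pi) := by
      have h6 : ((Real.arccos (ip a.1 b.1) + Real.arccos (ip b.1 c.1) +
        Real.arccos (ip c.1 d.1) + Real.arccos (ip d.1 a.1) : ℝ) : ℂ) * I =
        (((k : ℝ) * (2 * Real.pi) : ℝ) : ℂ) * I := by
        rw [hk]
        push_cast
        ring
      exact_mod_cast mul_right_cancel₀ Complex.I_ne_zero h6
    have hpi := Real.pi_pos
    have h7 : (0 : ℝ) < k := by
      by_contra hcon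
      have : (k : ℝ) * (2 * Real.pi) ≤ 0 :=
        mul_nonpos_of_nonpos_of_nonneg (not_lt.1 hcon) (by positivity)
      linarith
    have h8 : (k : ℝ) < 2 := by
      by_contra hcon
      have : 2 * (2 * Real.pi) ≤ (k : ℝ) * (2 * Real.pi) :=
        mul_le_mul_of_nonneg_right (not_lt.1 hcon) (by positivity)
      linarith
    have h9 : k = 1 := by
      have h10 : 0 < k := by exact_mod_cast h7
      have h11 : k < 2 := by exact_mod_cast h8
      omega
    rw [h5, h9, Int.cast_one, one_mul]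
  refine ⟨β, ⟨⟨?_, ?_, ?_, ?_, hsum⟩, ?_⟩, ?_, rfl, rfl, rfl, rfl, l0.trans ua, l1.trans ub,
    l2.trans uc, l3.trans ud, wa, wb, wc, wd⟩
  · intro i
    fin_cases i
    · exact ha
    · exact hb
    · exact hc
    · exact hd
  · intro i
    fin_cases i
    · exact ea
    · exact eb
    · exact ec
    · exact ed
  · intro i
    fin_cases i
    · exact pa
    · exact pb
    · exact pc
    · exact pd
  · intro i
    fin_cases i
    · exact la
    · exact lb
    · exact lc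
    · exact ld
  · intro i
    fin_cases i
    · exact ta.trans_eq l0.symm
    · exact tb.trans_eq l1.symm
    · exact tc.trans_eq l2.symm
    · exact td.trans_eq l3.symm
  · ext x
    constructor
    · intro hx s hs
      have h0 : ip a.1 x < a.2 := hx 0
      have h1 : ip b.1 x < b.2 := hx 1
      have h2 : ip c.1 x < c.2 := hx 2
      have h3 : ip d.1 x < d.2 := hx 3
      simp only [Finset.mem_insert, Finset.mem_singleton] at hs
      rcases hs with rfl | rfl | rfl | rfl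
      · exact h0
      · exact h1
      · exact h2
      · exact h3
    · intro hx i
      fin_cases i
      · exact hx a (by simp)
      · exact hx b (by simp)
      · exact hx c (by simp)
      · exact hx d (by simp)

end Pool.Agent.QUD.H62
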