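import Pool.Agent.QUD.StmtsF

/-!
# QUD, row FLP: a two point rearrangement which moves something is not isospectral
-/

set_option autoImplicit false

namespace Pool.Agent.QUD.H62

open MeasureTheory Complex Filter Topology ProbabilityTheory Pool.Agent.H16Iso Pool.Agent.H62T
open Pool.Agent.AEU

theorem flp (_hR : RfbStmt) (hT : SptStmt) (hB : SpbStmt) (hS : SpecStatement) : FlpStmt := by
  rintro e τ D D' he hDo hDc hDb hDn hDo' hDc' hDb' hDn' hP ⟨a, r₀, hr₀, ha⟩ ⟨b, r₁, hr₁, hb⟩ heq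
  have haa := ha a (Metric.mem_ball_self hr₀)
  have hbb := hb b (Metric.mem_ball_self hr₁)
  obtain ⟨t, r, δ, ht, hr, hδ, h⟩ := hB e τ D D' a b he hDo hDc hDb hDo' hDb' haa.2.1 hbb.2.1
    haa.1 hbb.1
  have hvol : ∀ (c : ℂ) (ρ : ℝ), 0 < ρ → 0 < (volume (Metric.ball c ρ)).toReal := fun c ρ hρ =>
    ENNReal.toReal_pos (Metric.measure_ball_pos volume c hρ).ne' measure_ball_lt_top.ne
  have hU := hvol a (min r₀ r) (lt_min hr₀ hr)
  have hV := hvol b (min r₁ r) (lt_min hr₁ hr)
  have hgap : ∀ m : ℕ, Tr D' (m + 1) t + δ ^ 2 *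
      ((volume (Metric.ball a (min r₀ r))).toReal * (volume (Metric.ball b (min r₁ r))).toReal) ≤
        Tr D (m + 1) t := by
    intro m
    refine hT e τ D D' he hDo hDb hDo' hDb' hP m t δ ht hδ.le (Metric.ball a (min r₀ r))
      (Metric.ball b (min r₁ r)) measurableSet_ball measurableSet_ball ?_ ?_ ?_
    · intro x hx
      have h1 := ha x (Metric.ball_subset_ball (min_le_left _ _) hx)
      exact ⟨h1.1, h1.2.2.1, h1.2.2.2⟩
    · intro z hz
      have h1 := hb z (Metric.ball_subset_ball (min_le_left _ _) hz)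
      exact ⟨h1.1, h1.2.2.1, h1.2.2.2⟩
    · intro x hx z hz
      exact h m x (Metric.ball_subset_ball (min_le_right _ _) hx) z
        (Metric.ball_subset_ball (min_le_right _ _) hz)
  obtain ⟨Z, hZ, hlim⟩ := hS D hDo hDc hDb hDn t ht
  obtain ⟨Z', hZ', hlim'⟩ := hS D' hDo' hDc' hDb' hDn' t ht
  have hZZ : Z = Z' := by
    have h1 : (fun k => Real.exp (-(dirEig D k * t))) = fun k => Real.exp (-(dirEig D' k * t)) := by
      funext k
      rw [heq k]
    rw [h1] at hZ
    exact hZ.unique hZ'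
  have h1 : Tendsto (fun m => Tr D (m + 1) t) atTop (𝓝 Z) :=
    (tendsto_add_atTop_iff_nat (f := fun m => Tr D m t) 1).2 hlim
  have h2 : Tendsto (fun m => Tr D' (m + 1) t) atTop (𝓝 Z') :=
    (tendsto_add_atTop_iff_nat (f := fun m => Tr D' m t) 1).2 hlim'
  have h3 := le_of_tendsto_of_tendsto' (h2.add_const (δ ^ 2 *
      ((volume (Metric.ball a (min r₀ r))).toReal * (volume (Metric.ball b (min r₁ r))).toReal)))
    h1 hgap
  have h4 : 0 < δ ^ 2 *
      ((volume (Metric.ball a (min r₀ r))).toReal * (volume (Metric.ball b (min r₁ r))).toReal) := by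
    positivity
  linarith

end Pool.Agent.QUD.H62
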